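import Pool.Agent.H15.FLC.Targets

/-!
MP_c62aed_lc, cutting planes for random CNFs with the saving `(log t / k) ^ (1/2)`: the rows.
Everything as in `Pool/Agent/H15/FLC/{Stmt,Defs,Targets}.lean`, only `H2` is replaced by the weaker
`H0` and the bound for the exceptions by `2 ^ (d s₀) 2 ^ (n - w)` (spread sets).
-/

set_option autoImplicit false

namespace Pool.Agent.H15.FLD

open Finset
open Pool.Agent.H15.FLC

/-- The final statement, with `ε ^ 2 k`. -/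
def MainD : Prop :=
  ∃ C : ℕ, ∀ (ε β : ℝ) (n t k m : ℕ), 0 < ε → ε < β → β ≤ 1 → 2 ≤ t → n ≤ t →
    C * Nat.log 2 t ≤ ε ^ 2 * k → C * k ≤ ε * n →
      (m * β ^ k ≤ 2 ^ ((1 - ε) * k) →
        2 ^ n * Nat.card {F : Formula n k m //
          ∃ (s : ℕ) (f g : ℕ → (Fin n → Bool) → ℝ), (s : ℝ) ≤ 2 ^ ((β - ε) * n) ∧
            Refutes F t s f g} ≤ Nat.card (Formula n k m)) ∧
      (C * t * 4 ^ k ≤ ε ^ 2 * m →
        2 ^ t * Nat.card {F : Formula n k m //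
          ∃ x y, (Nat.card {c // False2 F c x y} : ℝ) < (1 - ε) * m / 4 ^ k} ≤
            Nat.card (Formula n k m))

/-- In every cube of codimension at most `w + k` there are at most `s₀` half clauses. -/
def H0 {n k m : ℕ} (H : Fin m → Half n k) (w s₀ : ℕ) : Prop :=
  ∀ A : Finset (Fin n), A.card ≤ w + k → ∀ x : Fin n → Bool, Nat.card {c // InsC H (A, x) c} ≤ s₀

/-- The bound for the number of exceptions of one chain. -/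
def tau0 (n w d s₀ : ℕ) : ℕ := 2 ^ (d * s₀) * 2 ^ (n - w)

/-- The conditions on the parameters. -/
structure Par0 (γ : ℝ) (n t k w d s₀ : ℕ) : Prop where
  t1 : 1 ≤ t
  nt : n ≤ t
  k1 : 1 ≤ k
  kn : k ≤ n
  w1 : 1 ≤ w
  wn : w ≤ n
  rr : t + t * s₀ < 2 ^ d
  γ1 : γ ≤ 1
  tau4 : 4 * (tau0 n w d s₀ : ℝ) ≤ 2 ^ ((1 - γ) * n)
  bad4 : 4 * ((s₀ ^ (s₀ + 1) * 2 ^ (n - w) : ℕ) : ℝ) ≤ 2 ^ ((1 - γ) * n)
  cov : 4 * (s₀ * 2 ^ (n - k)) < 2 ^ n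

/-- LX0: the exceptions of a chain. -/
def T_LX0 : Prop :=
  ∀ {n k m : ℕ} (H : Fin m → Half n k) (r w d s₀ : ℕ), r < 2 ^ d → w ≤ n → H0 H w s₀ →
    ∀ 𝒞 : Set (Finset (Fin n → Bool)), IsChain (· ⊆ ·) 𝒞 →
      Nat.card {x : Fin n → Bool // ∃ B ∈ 𝒞, x ∈ ErrC H r w B} ≤ tau0 n w d s₀

/-- EB0: the number of the exceptions of real functions. -/
def T_EB0 : Prop :=
  ∀ {n k m : ℕ} (H : Fin m → Half n k) (r w d s₀ : ℕ), r < 2 ^ d → w ≤ n → H0 H w s₀ →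
    ∀ (f : ℕ → (Fin n → Bool) → ℝ) (i : ℕ), (ERC H r w f i).card ≤ i * tau0 n w d s₀

/-- Y0: few `y` violate `s₀ + 1` given half clauses. -/
def T_Y0 : Prop :=
  ∀ {n k m : ℕ} (H' : Fin m → Half n k) (w s₀ : ℕ), H0 H' w s₀ → w ≤ n →
    ∀ T : Finset (Fin m), T.card = s₀ + 1 →
      Nat.card {y : Fin n → Bool // ∀ c ∈ T, c ∈ RY H' y} ≤ 2 ^ (n - w)

/-- DE0: CNFs whose halves satisfy `H0` have no short refutations. -/
def T_DE0 : Prop :=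
  ∀ {n k m : ℕ} (γ : ℝ) (t w d s₀ : ℕ), Par0 γ n t k w d s₀ → ∀ F : Formula n k m,
    H0 (fun c => (F c).1) w s₀ → H0 (fun c => (F c).2) w s₀ →
    ∀ (s : ℕ) (f g : ℕ → (Fin n → Bool) → ℝ), Refutes F t s f g → ¬ (s : ℝ) ≤ 2 ^ (γ * n)

/-- HL0: the number of the half clauses inside `(A, x)`. -/
def T_HL0 : Prop :=
  ∀ (β : ℝ) (n k : ℕ) (A : Finset (Fin n)) (x : Fin n → Bool), 0 ≤ β → (A.card : ℝ) ≤ β * n →
    (Nat.card {c : Half n k // c.1.1 ⊆ A ∧ Violates c x} : ℝ) ≤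
      (β / 2) ^ k * Nat.card (Half n k)

/-- HX0: few tuples of half clauses violate `H0`. -/
def T_HX0 : Prop :=
  ∀ (ε β : ℝ) (n k m w s₀ : ℕ), 0 < ε → 0 < β → (w + k : ℝ) ≤ β * n →
    m * β ^ k ≤ 2 ^ ((1 - ε) * k) → 4 * (n : ℝ) + 4 ≤ ε * k * (s₀ + 1) →
    2 ^ (n + 1) * Nat.card {H : Fin m → Half n k // ¬ H0 H w s₀} ≤ Nat.card (Fin m → Half n k)

/-- NM0: the parameters. -/
def T_NM0 : Prop :=
  ∃ C : ℕ, ∀ (ε β : ℝ) (n t k : ℕ), 0 < ε → ε < β → β ≤ 1 → 2 ≤ t → n ≤ t →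
    C * Nat.log 2 t ≤ ε ^ 2 * k → C * k ≤ ε * n →
      ∃ w d s₀ : ℕ, Par0 (β - ε) n t k w d s₀ ∧ (w + k : ℝ) ≤ β * n ∧
        4 * (n : ℝ) + 4 ≤ ε * k * (s₀ + 1)

/-- EN0: the final statement. -/
def T_EN0 : Prop := MainD

end Pool.Agent.H15.FLD
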