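import Pool.Agent.H15.FLD.EN0
import Pool.Agent.H10.FLC.CHC
import Pool.Agent.H13.FLC.LFC
import Pool.Agent.H13.FLD.HL0
import Pool.Agent.H21.FLD.DE0
import Pool.Agent.H36.FLD.NM0
import Pool.Agent.H39.FLC.PRC
import Pool.Agent.H64.FLD.HX0
import Pool.Agent.H91.FLD.Y0
import Pool.Agent.H95.FLC.CAPC
import Pool.Agent.H95.FLC.KRCX
import Pool.Agent.H95.FLD.EB0
import Pool.Agent.H95.FLD.LX0

/-!
MP_c62aed_lc, cutting planes for random CNFs, saving `(log t / k) ^ (1/2)`: composition of the rows.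
-/

set_option autoImplicit false

namespace Pool.Agent.H15.FLD

theorem mainD : MainD :=
  pf_EN0
    (Pool.Agent.H21.FLD.pf_DE0 (Pool.Agent.H95.FLD.pf_EB0 Pool.Agent.H95.FLD.pf_LX0)
      Pool.Agent.H95.FLC.pf_KRCX Pool.Agent.H95.FLC.pf_CAPC Pool.Agent.H91.FLD.pf_Y0
      Pool.Agent.H13.FLC.pf_LFC Pool.Agent.H39.FLC.pf_PRC)
    (Pool.Agent.H64.FLD.pf_HX0 Pool.Agent.H13.FLD.pf_HL0)
    Pool.Agent.H36.FLD.pf_NM0 Pool.Agent.H10.FLC.pf_CHC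

end Pool.Agent.H15.FLD
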