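import Pool.Agent.H15.FLD.Targets
import Pool.Agent.H15.FLC.ENDC

/-!
MP_c62aed_lc, cutting planes for random CNFs, row EN0: the final statement.
-/

set_option autoImplicit false

namespace Pool.Agent.H15.FLD

open Finset
open Pool.Agent.H15.FLC

theorem pf_EN0 (hDE0 : T_DE0) (hHX0 : T_HX0) (hNM0 : T_NM0) (hCHC : T_CHC) : T_EN0 := by
  obtain ⟨C, hC⟩ := hNM0
  refine ⟨C + 8, fun ε β n t k m h0 hεβ hβ ht hnt h1 h2 => ⟨fun h3 => ?_, fun h5 => ?_⟩⟩
  · have hl0 : (0 : ℝ) ≤ Nat.log 2 t := Nat.cast_nonneg _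
    have hk0 : (0 : ℝ) ≤ k := Nat.cast_nonneg _
    have h1' : (C : ℝ) * Nat.log 2 t ≤ ε ^ 2 * k := by
      push_cast at h1
      nlinarith
    have h2' : (C : ℝ) * k ≤ ε * n := by
      push_cast at h2
      nlinarith
    obtain ⟨w, d, s₀, hP, hw, hs⟩ := hC ε β n t k h0 hεβ hβ ht hnt h1' h2'
    have hX := hHX0 ε β n k m w s₀ h0 (h0.trans hεβ) hw h3 hs
    have hmono := cardMono (α := Formula n k m)
      (P := fun F => ∃ (s : ℕ) (f g : ℕ → (Fin n → Bool) → ℝ), (s : ℝ) ≤ 2 ^ ((β - ε) * n) ∧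
            Refutes F t s f g)
      (Q := fun F => (¬ H0 (fun c => (F c).1) w s₀) ∨ ¬ H0 (fun c => (F c).2) w s₀) (by
        rintro F ⟨s, f, g, hsl, hR⟩
        by_contra hcon
        push Not at hcon
        exact hDE0 (β - ε) t w d s₀ hP F hcon.1 hcon.2 s f g hR hsl)
    have hor := cardOr (α := Formula n k m) (fun F => ¬ H0 (fun c => (F c).1) w s₀)
      (fun F => ¬ H0 (fun c => (F c).2) w s₀)
    have e1 := card_fst (n := n) (k := k) (m := m) (fun G => ¬ H0 G w s₀)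
    have e2 := card_snd (n := n) (k := k) (m := m) (fun G => ¬ H0 G w s₀)
    rw [e1, e2] at hor
    rw [card_all]
    set A := Nat.card {G : Fin m → Half n k // ¬ H0 G w s₀} with hA
    set N := Nat.card (Fin m → Half n k) with hN
    refine le_trans (Nat.mul_le_mul_left _ (hmono.trans hor)) ?_
    calc 2 ^ n * (A * N + A * N) = (2 ^ (n + 1) * A) * N := by ring
      _ ≤ N * N := Nat.mul_le_mul_right _ hX
  · refine hCHC ε n t k m h0 (hεβ.le.trans hβ) (by omega) hnt ?_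
    refine le_trans ?_ h5
    have hC0 : (0 : ℝ) ≤ C := Nat.cast_nonneg _
    push_cast
    have : (0 : ℝ) ≤ t * 4 ^ k := by positivity
    nlinarith

end Pool.Agent.H15.FLD
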